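import Pool.Agent.helper67GM.Low

/-!
# The generic point of a component over an algebraically closed field of characteristic zero

The library (files `Q92/DP/Genpt.lean`, `Q203/DPF/Gen.lean`) takes a generic point of a component of
the cone over the complex numbers with complex coordinates, which uses that the complex numbers have
infinite transcendence degree. Here the base field `𝕜` is an arbitrary algebraically closed field of
characteristic zero, and the generic point has its coordinates in the algebraic closure `k` of the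
function field of the component; the elliptic curve is replaced by its base change to `k`.
-/

set_option autoImplicit false
set_option linter.unusedSectionVars false

namespace Pool.Agent.H67GM

open MvPolynomial FF Pool.Agent.W603.LV Pool.Agent.TH145.GH Pool.Agent.Y166.DP Pool.Agent.Q35.DP

/-- The statement `S_GENPT` of the library for the base field `𝕜`, with the generic point over an
extension `k` of `𝕜`. -/
def S_GENPTk (𝕜 : Type) [Field 𝕜] [CharZero 𝕜] : Prop :=
  ∀ (K₀ : Type) [Field K₀] [Algebra 𝕜 K₀] [IsFF 𝕜 K₀] (lam : 𝕜) (x₀ y₀ : K₀), Ell 𝕜 K₀ lam x₀ y₀ →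
    Transcendental ℚ lam → ∀ (d : ℕ) (M : Set (Idx d → 𝕜)), IsComp (cone x₀ y₀ d) M →
    ∃ (k K : Type) (_ : Field k) (_ : Field K) (_ : Algebra k K) (_ : CharZero k)
      (_ : IsAlgClosed k) (_ : IsFF k K) (_ : Algebra 𝕜 k) (x y : K),
      Ell k K (algebraMap 𝕜 k lam) x y ∧
      ∃ c ∈ cone x y d, ∃ 𝒟 : Submodule k (Derivation ℤ k k), FiniteDimensional k 𝒟 ∧
        Module.finrank k 𝒟 = dimA M + 1 ∧
        ∀ D ∈ 𝒟, D (algebraMap 𝕜 k lam) = 0 → (∀ p, D (c p) = 0) → D = 0

/-- The generic point of a prime ideal over the algebraic closure of its function field. -/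
theorem generic (𝕜 : Type) [Field 𝕜] [CharZero 𝕜] (σ : Type) [Finite σ]
    (I : Ideal (MvPolynomial σ 𝕜)) (hI : I.IsPrime) (lam : 𝕜) (hlam : Transcendental ℚ lam) :
    ∃ (k : Type) (_ : Field k) (_ : CharZero k) (_ : IsAlgClosed k) (_ : Algebra 𝕜 k) (ξ : σ → k),
      (∀ F : MvPolynomial σ 𝕜, aeval ξ F = 0 ↔ F ∈ I) ∧
      ∃ j : Fin (Cardinal.toNat (Algebra.trdeg 𝕜 (MvPolynomial σ 𝕜 ⧸ I))) → σ,
        AlgebraicIndependent ℚ
          (Fin.cons (algebraMap 𝕜 k lam) (fun i => ξ (j i)) : Fin (_ + 1) → k) := by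
  classical
  have := hI
  let A : Type := MvPolynomial σ 𝕜 ⧸ I
  let F : Type := FractionRing A
  let k : Type := AlgebraicClosure F
  have hinj : Function.Injective (algebraMap A k) := by
    rw [IsScalarTower.algebraMap_eq A F k]
    exact (algebraMap F k).injective.comp (IsFractionRing.injective A F)
  have hC : CharZero k := charZero_of_injective_algebraMap (algebraMap 𝕜 k).injective
  let xA : σ → A := fun s => Ideal.Quotient.mk I (X s)
  let ξ : σ → k := fun s => algebraMap A k (xA s)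
  have hx : ∀ p : MvPolynomial σ 𝕜, aeval ξ p = algebraMap A k (Ideal.Quotient.mk I p) := by
    intro p
    have h1 : (aeval ξ : MvPolynomial σ 𝕜 →ₐ[𝕜] k) =
        (IsScalarTower.toAlgHom 𝕜 A k).comp (Ideal.Quotient.mkₐ 𝕜 I) := by
      apply MvPolynomial.algHom_ext
      intro i
      rw [aeval_X]
      rfl
    rw [h1]
    rfl
  refine ⟨k, inferInstance, hC, inferInstance, inferInstance, ξ, ?_, ?_⟩
  · intro p
    rw [hx, map_eq_zero_iff _ hinj, Ideal.Quotient.eq_zero_iff_mem]
  · have hadj : Algebra.adjoin 𝕜 (Set.range xA) = ⊤ := by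
      have h1 : (Ideal.Quotient.mkₐ 𝕜 I).range = ⊤ :=
        (AlgHom.range_eq_top _).2 (Ideal.Quotient.mkₐ_surjective 𝕜 I)
      rw [← h1, ← Algebra.map_top, ← MvPolynomial.adjoin_range_X, AlgHom.map_adjoin,
        ← Set.range_comp]
      rfl
    have : Algebra.IsAlgebraic (Algebra.adjoin 𝕜 (Set.range xA)) A := by
      rw [hadj]
      exact ⟨fun a => isAlgebraic_algebraMap (⟨a, trivial⟩ : (⊤ : Subalgebra 𝕜 A))⟩
    obtain ⟨T, hTs, hT⟩ := exists_isTranscendenceBasis_subset (R := 𝕜) (Set.range xA)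
    have hTf : T.Finite := (Set.finite_range xA).subset hTs
    have := hTf.fintype
    have hcard : Cardinal.toNat (Algebra.trdeg 𝕜 A) = Fintype.card T := by
      rw [← hT.cardinalMk_eq_trdeg, Cardinal.mk_fintype, Cardinal.toNat_natCast]
    let e : Fin (Cardinal.toNat (Algebra.trdeg 𝕜 A)) ≃ T :=
      (finCongr hcard).trans (Fintype.equivFin T).symm
    have hsel : ∀ t : T, ∃ s : σ, xA s = t := fun t => hTs t.2
    choose sel hsel using hsel
    refine ⟨fun i => sel (e i), ?_⟩
    have h1 : AlgebraicIndependent 𝕜 (fun i => ξ (sel (e i))) := by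
      have h2 : AlgebraicIndependent 𝕜 (fun i => xA (sel (e i))) := by
        have : (fun i => xA (sel (e i))) = (fun t : T => (t : A)) ∘ e := by
          funext i
          exact hsel _
        rw [this]
        exact hT.1.comp e e.injective
      exact h2.map' (f := IsScalarTower.toAlgHom 𝕜 A k) hinj
    have h2 : AlgebraicIndependent ℚ (fun _ : Unit => lam) := by
      rw [algebraicIndependent_unique_type_iff]
      exact hlam
    have h3 := AlgebraicIndependent.sumElim_comp (A := k) h2 h1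
    have h5 := h3.comp (Fin.cases (Sum.inr ()) Sum.inl) (by
      intro a b
      refine Fin.cases ?_ (fun a => ?_) a <;> refine Fin.cases ?_ (fun b => ?_) b
      · simp
      · simp
      · simp
      · simp)
    have h6 : AlgebraicIndependent ℚ
        (Fin.cons (algebraMap 𝕜 k lam) (fun i => ξ (sel (e i))) :
          Fin (Cardinal.toNat (Algebra.trdeg 𝕜 A) + 1) → k) := by
      have e7 : (Fin.cons (algebraMap 𝕜 k lam) (fun i => ξ (sel (e i))) :
          Fin (Cardinal.toNat (Algebra.trdeg 𝕜 A) + 1) → k) =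
          Sum.elim (fun i => ξ (sel (e i))) ((algebraMap 𝕜 k) ∘ fun _ => lam) ∘
            fun i => Fin.cases (Sum.inr ()) Sum.inl i := by
        funext i
        refine Fin.cases ?_ (fun i => ?_) i
        · rfl
        · rfl
      rw [e7]
      exact h5
    exact h6

theorem genpt (𝕜 : Type) [Field 𝕜] [CharZero 𝕜] [IsAlgClosed 𝕜] (hModel : StmModel) (hFF : StmFF)
    (hRK : StmRK) (hEqn : StmEqn) (hDual : StmDual) : S_GENPTk 𝕜 := by
  classical
  intro K₀ _ _ _ lam x₀ y₀ hE htr d M hM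
  obtain ⟨S, hS⟩ := hRK 𝕜 lam d d
  obtain ⟨S', hS'⟩ := hRK 𝕜 lam d (d + 1)
  obtain ⟨T, hT⟩ := hEqn 𝕜 lam d
  have hE0 : Ell 𝕜 K₀ (algebraMap 𝕜 𝕜 lam) x₀ y₀ := hE
  obtain ⟨hMsub, hirr, -⟩ := hM
  have hprime : (van M).IsPrime := hirr
  have hmem : ∀ G : MvPolynomial (Idx d) 𝕜, G ∈ van M ↔ ∀ c ∈ M, eval c G = 0 :=
    fun G => Iff.rfl
  -- a point of `M`
  have hne : M.Nonempty := by
    by_contra h0
    rw [Set.not_nonempty_iff_eq_empty] at h0
    apply hprime.ne_top
    rw [Ideal.eq_top_iff_one, hmem]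
    intro c hc
    rw [h0] at hc
    exact absurd hc (Set.notMem_empty c)
  obtain ⟨c₀, hc₀⟩ := hne
  obtain ⟨hg, heq, hht⟩ := hMsub hc₀
  have hgv : ∀ {k' K' : Type} [Field k'] [Field K'] [Algebra k' K'] (x' y' : K')
      (c : Idx d → k'),
      (fun i => fsum x' y' fun j => (fun p => c (Sum.inl p)) (i, j)) = gv x' y' c :=
    fun x' y' c => rfl
  have hcne : (fun p => c₀ (Sum.inl p) : Fin 3 × Fin (d + 1) → 𝕜) ≠ 0 := by
    intro h0
    apply hg
    funext i
    unfold gv fsum
    simp only [Pi.zero_apply]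
    refine Finset.sum_eq_zero fun j _ => ?_
    have := congrFun h0 (i, j)
    simp only [Pi.zero_apply] at this
    rw [this, map_zero, zero_mul]
  obtain ⟨p, hp⟩ := Function.ne_iff.1 hcne
  simp only [Pi.zero_apply] at hp
  obtain ⟨F, hF, hF0⟩ := (hS 𝕜 K₀ x₀ y₀ hE0 (fun p => c₀ (Sum.inl p)) hcne).2 (by
    rw [hgv, hht])
  have hev : ∀ {σ : Type} (c : σ → 𝕜) (G : MvPolynomial σ 𝕜), aeval c G = eval c G := by
    intro σ c G
    rw [aeval_def, eval]
    rfl
  have hren : ∀ {k' : Type} [Field k'] [Algebra 𝕜 k'] (c : Idx d → k')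
      (G : MvPolynomial (Fin 3 × Fin (d + 1)) 𝕜),
      aeval c (rename Sum.inl G : MvPolynomial (Idx d) 𝕜) =
        aeval (fun p => c (Sum.inl p)) G := by
    intro k' _ _ c G
    rw [aeval_rename]
    rfl
  have hh : (rename Sum.inl F : MvPolynomial (Idx d) 𝕜) * X (Sum.inl p) ∉ van M := by
    intro h0
    rcases hprime.mem_or_mem h0 with h1 | h1
    · apply hF0
      rw [← hren, hev]
      exact (hmem _).1 h1 c₀ hc₀
    · apply hp
      have := (hmem _).1 h1 c₀ hc₀
      rwa [eval_X] at this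
  obtain ⟨k, i1, i4, i5, i7, ξ, hξI, j, hj⟩ := generic 𝕜 (Idx d) (van M) hprime lam htr
  have hL0 : algebraMap 𝕜 k lam ≠ 0 := by
    rw [Ne, map_eq_zero]
    exact hE.lam0
  have hL1 : algebraMap 𝕜 k lam ≠ 1 := by
    intro h
    apply hE.lam1
    apply (algebraMap 𝕜 k).injective
    rw [h, map_one]
  have hE' := hModel k (algebraMap 𝕜 k lam) hL0 hL1
  have hFF' : IsFF k (KB k (algebraMap 𝕜 k lam)) := hFF k _ _ _ _ hE'
  obtain ⟨K, i2, i3, i6, x, y, hE'⟩ : ∃ (K : Type) (_ : Field K) (_ : Algebra k K) (_ : IsFF k K)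
      (x y : K), Ell k K (algebraMap 𝕜 k lam) x y := ⟨_, inferInstance, inferInstance, hFF', _, _, hE'⟩
  have hξh : aeval ξ ((rename Sum.inl F : MvPolynomial (Idx d) 𝕜) * X (Sum.inl p)) ≠ 0 :=
    fun h => hh ((hξI _).1 h)
  rw [map_mul, aeval_X] at hξh
  have hξp : ξ (Sum.inl p) ≠ 0 := right_ne_zero_of_mul hξh
  have hξF := left_ne_zero_of_mul hξh
  have hξne : (fun p => ξ (Sum.inl p) : Fin 3 × Fin (d + 1) → k) ≠ 0 := by
    intro h0
    exact hξp (congrFun h0 p)
  have h5 : ((d : ℕ) : ℤ) ≤ ht k (gv x y ξ) := by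
    have := (hS k K x y hE' (fun p => ξ (Sum.inl p)) hξne).1 ⟨F, hF, by
      rw [← hren]
      exact hξF⟩
    rwa [hgv] at this
  have h6 : ¬ (((d + 1 : ℕ) : ℤ) ≤ ht k (gv x y ξ)) := by
    intro h7
    obtain ⟨G, hG, hG0⟩ := (hS' k K x y hE' (fun p => ξ (Sum.inl p)) hξne).2 (by
      rw [hgv]; exact h7)
    apply hG0
    rw [← hren, hξI, hmem]
    intro c hc
    obtain ⟨hcg, -, hcht⟩ := hMsub hc
    rw [← hev, hren]
    by_contra hne
    have hcne' : (fun p => c (Sum.inl p) : Fin 3 × Fin (d + 1) → 𝕜) ≠ 0 := by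
      intro h0
      apply hcg
      funext i
      unfold gv fsum
      simp only [Pi.zero_apply]
      refine Finset.sum_eq_zero fun j _ => ?_
      have := congrFun h0 (i, j)
      simp only [Pi.zero_apply] at this
      rw [this, map_zero, zero_mul]
    have h8 := (hS' 𝕜 K₀ x₀ y₀ hE0 (fun p => c (Sum.inl p)) hcne').1 ⟨G, hG, hne⟩
    rw [hgv, hcht] at h8
    push_cast at h8
    omega
  have h7 : ht k (gv x y ξ) = ((d : ℕ) : ℤ) := by
    push_cast at h5 h6 ⊢
    omega
  have hcone : ξ ∈ cone x y d := by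
    refine ⟨?_, ?_, h7⟩
    · intro h0
      rcases Nat.eq_zero_or_pos d with hd | hd
      · subst hd
        have h8 := congrFun h0 p.1
        unfold gv fsum at h8
        rw [Fin.sum_univ_one] at h8
        simp only [Pi.zero_apply, fn, Fin.isValue, Fin.val_zero, if_true, mul_one] at h8
        have h9 : p = (p.1, (0 : Fin (0 + 1))) := by
          ext
          · rfl
          · simp
        apply hξp
        rw [h9]
        exact (map_eq_zero (algebraMap k K)).1 h8
      · rw [h0] at h7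
        have h8 : ht k (0 : Fin 3 → K) = 0 := by
          unfold ht
          simp [mo_zero]
        rw [h8] at h7
        omega
    · refine (hT k K x y hE' ξ).2 fun G hG => ?_
      rw [hξI, hmem]
      intro c hc
      rw [← hev]
      exact (hT 𝕜 K₀ x₀ y₀ hE0 c).1 (hMsub hc).2.1 G hG
  refine ⟨k, K, i1, i2, i3, i4, i5, i6, i7, x, y, hE', ξ, hcone, ?_⟩
  -- the derivations
  set z : Fin (Cardinal.toNat (Algebra.trdeg 𝕜 (MvPolynomial (Idx d) 𝕜 ⧸ van M)) + 1) → k :=
    Fin.cons (algebraMap 𝕜 k lam) (fun i => ξ (j i)) with hz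
  obtain ⟨D, hD⟩ := hDual ℚ k _ z hj
  obtain ⟨D', hD'⟩ : ∃ D' : Fin (Cardinal.toNat (Algebra.trdeg 𝕜
      (MvPolynomial (Idx d) 𝕜 ⧸ van M)) + 1) → Derivation ℤ k k, ∀ i a, D' i a = D i a :=
    ⟨fun i => (D i).restrictScalars ℤ, fun i a => rfl⟩
  have hlin : ∀ (a : Fin (Cardinal.toNat (Algebra.trdeg 𝕜
      (MvPolynomial (Idx d) 𝕜 ⧸ van M)) + 1) → k) (l), (∑ i, a i • D' i) (z l) = a l := by
    intro a l
    have e1 : (∑ i, a i • D' i) (z l) = ∑ i, (a i • D' i) (z l) := by
      rw [← Derivation.coeFnAddMonoidHom_apply, map_sum, Finset.sum_apply]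
      rfl
    rw [e1]
    simp only [Derivation.smul_apply, hD', hD, smul_eq_mul, mul_ite, mul_one, mul_zero]
    rw [Finset.sum_ite_eq' Finset.univ l a, if_pos (Finset.mem_univ l)]
  have hind : LinearIndependent k D' := by
    rw [Fintype.linearIndependent_iff]
    intro a ha i
    rw [← hlin a i, ha]
    rfl
  refine ⟨Submodule.span k (Set.range D'), ?_, ?_, ?_⟩
  · exact FiniteDimensional.span_of_finite k (Set.finite_range D')
  · rw [finrank_span_eq_card hind, Fintype.card_fin]
    rfl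
  · intro E hEm hE1 hE2
    obtain ⟨a, rfl⟩ := (Submodule.mem_span_range_iff_exists_fun k).1 hEm
    have : a = 0 := by
      funext l
      rw [← hlin a l]
      refine Fin.cases ?_ (fun l => ?_) l
      · rw [hz, Fin.cons_zero]
        exact hE1
      · rw [hz, Fin.cons_succ]
        exact hE2 _
    rw [this]
    simp

end Pool.Agent.H67GM
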