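import Pool.Agent.helper67GM.Ptb

/-!
The large component over an algebraically closed field of characteristic zero: port of the library
file `Q92/DP/Low.lean` (there over the complex numbers).
-/

set_option autoImplicit false
set_option linter.unusedSectionVars false

namespace Pool.Agent.H67GM

open MvPolynomial FF Pool.Agent.W603.LV Pool.Agent.TH145.GH Pool.Agent.Y166.DP Pool.Agent.Q35.DP

theorem kill_of_ell {k₀ K₀ K : Type} [Field k₀] [Field K₀] [Algebra k₀ K₀] [Field K]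
    {lam : k₀} {x₀ y₀ : K₀} (hE : Ell k₀ K₀ lam x₀ y₀) (φ : K₀ →+* K) (D : Derivation ℤ K K)
    (hc : ∀ c : k₀, D (φ (algebraMap k₀ K₀ c)) = 0) (hx : D (φ x₀) = 0) (hy : D (φ y₀) = 0)
    (a : K₀) : D (φ a) = 0 := by
  have ha : a ∈ IntermediateField.adjoin k₀ {x₀, y₀} := by
    rw [hE.gen]; exact IntermediateField.mem_top
  induction ha using IntermediateField.adjoin_induction with
  | mem u hu =>
    rcases hu with rfl | hu
    · exact hx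
    · rw [Set.mem_singleton_iff] at hu
      rw [hu]; exact hy
  | algebraMap c => exact hc c
  | add u v _ _ hu hv => rw [map_add, map_add, hu, hv, add_zero]
  | mul u v _ _ hu hv => rw [map_mul, D.leibniz, hu, hv, smul_zero, smul_zero, add_zero]
  | inv u _ hu => rw [map_inv₀, D.leibniz_inv, hu, smul_zero]

/-- The statement `S_LOW` of the library for the base field `𝕜`. -/
def S_LOWk (𝕜 : Type) [Field 𝕜] : Prop :=
  ∀ (K₀ : Type) [Field K₀] [Algebra 𝕜 K₀] (lam : 𝕜) (x₀ y₀ : K₀), Ell 𝕜 K₀ lam x₀ y₀ →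
    ∀ m : ℕ, 2 ≤ m → ∃ M : Set (Idx (2 * m) → 𝕜), IsComp (cone x₀ y₀ (2 * m)) M ∧ 2 * m + 2 ≤ dimA M ∧
      ¬ InSurface x₀ y₀ M

theorem low (𝕜 : Type) [Field 𝕜] [CharZero 𝕜] [IsAlgClosed 𝕜] (hFF : StmFF) (hRK : StmRK) (hEqn : StmEqn) (hMap : StmMap) (hComp : StmComp)
    (hDim : StmDim) (hSpec : StmSpec) (hSurf : StmSurf) (hNoSurf : StmNoSurf) (hPTB : S_PTBk 𝕜) :
    S_LOWk 𝕜 := by
  intro K₀ _ _ lam x₀ y₀ hE m hm
  haveI : IsFF 𝕜 K₀ := hFF 𝕜 K₀ lam x₀ y₀ hE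
  obtain ⟨k, K, i1, i2, i3, i4, i5, i6, i7, x, y, hE', ξ, hξ, ⟨z, hz, hzalg⟩, D₁, D₂, hD,
    hD1x, hD1y, hD2x, hD2y, hwr⟩ := hPTB lam hE.lam0 hE.lam1 m hm
  obtain ⟨S, hS⟩ := hRK 𝕜 lam (2 * m) (2 * m)
  obtain ⟨S', hS'⟩ := hRK 𝕜 lam (2 * m) (2 * m + 1)
  obtain ⟨T, hT⟩ := hEqn 𝕜 lam (2 * m)
  have hE0 : Ell 𝕜 K₀ (algebraMap 𝕜 𝕜 lam) x₀ y₀ := hE
  obtain ⟨hg, heq, hht⟩ := hξ
  -- a nonzero coordinate
  have hcne : (fun p => ξ (Sum.inl p) : Fin 3 × Fin (2 * m + 1) → k) ≠ 0 := by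
    intro h0
    apply hg
    funext i
    unfold gv fsum
    simp only [Pi.zero_apply]
    refine Finset.sum_eq_zero fun j _ => ?_
    have := congrFun h0 (i, j)
    simp only [Pi.zero_apply] at this
    rw [this, map_zero, zero_mul]
  obtain ⟨p, hp⟩ := Function.ne_iff.1 hcne
  simp only [Pi.zero_apply] at hp
  have hgv : ∀ {k' K' : Type} [Field k'] [Field K'] [Algebra k' K'] (x' y' : K')
      (c : Idx (2 * m) → k'),
      (fun i => fsum x' y' fun j => (fun p => c (Sum.inl p)) (i, j)) = gv x' y' c :=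
    fun x' y' c => rfl
  -- the polynomial of `S`
  have h1 := (hS k K x y hE' (fun p => ξ (Sum.inl p)) hcne).2 (by
    rw [hgv, hht])
  obtain ⟨F, hF, hF0⟩ := h1
  have h2 : ∀ G ∈ S', aeval (fun p => ξ (Sum.inl p)) G = 0 := by
    intro G hG
    by_contra hne
    have h3 := (hS' k K x y hE' (fun p => ξ (Sum.inl p)) hcne).1 ⟨G, hG, hne⟩
    rw [hgv, hht] at h3
    push_cast at h3
    omega
  have h3 : ∀ G ∈ T, aeval ξ G = 0 := (hT k K x y hE' ξ).1 heq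
  -- `μ`
  have hren : ∀ {k' : Type} [Field k'] [Algebra 𝕜 k'] (c : Idx (2 * m) → k')
      (G : MvPolynomial (Fin 3 × Fin (2 * m + 1)) 𝕜),
      aeval c (rename Sum.inl G : MvPolynomial (Idx (2 * m)) 𝕜) =
        aeval (fun p => c (Sum.inl p)) G := by
    intro k' _ _ c G
    rw [aeval_rename]
    rfl
  set μ : MvPolynomial (Idx (2 * m)) 𝕜 := rename Sum.inl F * X (Sum.inl p) with hμ
  have hμ0 : aeval ξ μ ≠ 0 := by
    rw [hμ, map_mul, hren, aeval_X]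
    exact mul_ne_zero hF0 hp
  obtain ⟨Z, hZ⟩ : ∃ Z : Set (Idx (2 * m) → 𝕜), Z = {z | (∀ F : MvPolynomial (Idx (2 * m)) 𝕜,
      aeval ξ F = 0 → eval z F = 0) ∧ eval z μ ≠ 0} := ⟨_, rfl⟩
  obtain ⟨hvan, hirr, hdim⟩ := hSpec 𝕜 k (Idx (2 * m)) ξ μ hμ0 Z hZ
  have hev : ∀ {σ : Type} (c : σ → 𝕜) (G : MvPolynomial σ 𝕜), aeval c G = eval c G := by
    intro σ c G
    rw [aeval_def, eval]
    rfl
  have hsub : Z ⊆ cone x₀ y₀ (2 * m) := by
    intro c hc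
    rw [hZ] at hc
    obtain ⟨hc1, hc2⟩ := hc
    rw [hμ, map_mul, eval_X] at hc2
    have hc3 : c (Sum.inl p) ≠ 0 := right_ne_zero_of_mul hc2
    have hc4 : (fun p => c (Sum.inl p) : Fin 3 × Fin (2 * m + 1) → 𝕜) ≠ 0 := by
      intro h0
      exact hc3 (congrFun h0 p)
    have h5 : ((2 * m : ℕ) : ℤ) ≤ ht 𝕜 (gv x₀ y₀ c) := by
      have := (hS 𝕜 K₀ x₀ y₀ hE0 (fun p => c (Sum.inl p)) hc4).1 ⟨F, hF, by
        rw [← hren, hev]
        exact left_ne_zero_of_mul hc2⟩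
      rwa [hgv] at this
    have h6 : ¬ (((2 * m + 1 : ℕ) : ℤ) ≤ ht 𝕜 (gv x₀ y₀ c)) := by
      intro h7
      obtain ⟨G, hG, hG0⟩ := (hS' 𝕜 K₀ x₀ y₀ hE0 (fun p => c (Sum.inl p)) hc4).2 (by
        rw [hgv]; exact h7)
      apply hG0
      rw [← hren, hev]
      apply hc1
      rw [hren]
      exact h2 G hG
    have h7 : ht 𝕜 (gv x₀ y₀ c) = ((2 * m : ℕ) : ℤ) := by
      push_cast at h5 h6 ⊢
      omega
    refine ⟨?_, ?_, h7⟩
    · intro h0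
      rw [h0] at h7
      have h8 : ht 𝕜 (0 : Fin 3 → K₀) = 0 := by
        unfold ht
        simp [mo_zero]
      rw [h8] at h7
      push_cast at h7
      omega
    · refine (hT 𝕜 K₀ x₀ y₀ hE0 c).2 fun G hG => ?_
      rw [hev]
      exact hc1 G (h3 G hG)
  obtain ⟨M, hM, hZM⟩ := hComp 𝕜 (Idx (2 * m)) (cone x₀ y₀ (2 * m)) Z hsub hirr
  refine ⟨M, hM, ?_, ?_⟩
  · have h4 := hdim (Fin (2 * m + 2)) z hz hzalg
    rw [Fintype.card_fin] at h4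
    exact h4.trans (hDim 𝕜 (Idx (2 * m)) Z M hZM hirr hM.2.1)
  · rintro ⟨n, Ψ, hhom, hΨ, hvan'⟩
    haveI : CharZero K := charZero_of_injective_algebraMap (algebraMap k K).injective
    obtain ⟨φ, hφx, hφy, hφc⟩ := hMap 𝕜 K₀ k K lam x₀ y₀ x y hE hE'
    have h4 := hSurf 𝕜 K₀ k K x₀ y₀ φ (2 * m) hφc ξ Z (fun F hF => (hvan F).1 hF) Ψ
      (fun c hc => hvan' c (hZM hc))
    rw [hφx, hφy] at h4
    refine hNoSurf K₀ K φ D₁ D₂ ?_ ?_ (gv x y ξ) hwr n Ψ hhom hΨ h4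
    · refine kill_of_ell hE φ D₁ (fun c => ?_) ?_ ?_
      · rw [hφc]; exact (hD c).1
      · rw [hφx]; exact hD1x
      · rw [hφy]; exact hD1y
    · refine kill_of_ell hE φ D₂ (fun c => ?_) ?_ ?_
      · rw [hφc]; exact (hD c).2
      · rw [hφx]; exact hD2x
      · rw [hφy]; exact hD2y

end Pool.Agent.H67GM
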