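import Pool.Agent.helper67GM.Genpt
import Pool.Graph.R_pool_sql_team_seeded_3997aac3.Q35.DP.All
import Pool.Graph.R_pool_sql_team_seeded_3997aac3.Q203.DPF.Pta

/-!
# The counting argument and the assembly over an algebraically closed field of characteristic zero
-/

set_option autoImplicit false
set_option linter.unusedSectionVars false

namespace Pool.Agent.H67GM

open MvPolynomial FF Pool.Agent.W603.LV Pool.Agent.TH145.GH Pool.Agent.Y166.DP Pool.Agent.Q35.DP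
open Filter
open scoped ENNReal

/-- The asymptotic formula fails for all large `q`, if the dimensions for odd primes `d` are at most
`d`, and for even `d` there is a component of dimension at least `d + 1`. (The library's `StmAsym`,
with a bound for `q`.) -/
theorem asym (ι : ℕ → Type) (dm : ∀ d, ι d → ℕ)
    (hodd : ∀ p : ℕ, p.Prime → Odd p → ∀ M : ι p, dm p M ≤ p)
    (heven : ∀ m : ℕ, 2 ≤ m → ∃ M : ι (2 * m), 2 * m + 1 ≤ dm (2 * m) M) :
    ∃ Q : ℝ, 1 ≤ Q ∧ ∀ q : ℝ, Q < q → ¬ ∃ C : ℝ, 0 < C ∧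
      Tendsto (fun d : ℕ => (∑ i ∈ Finset.Icc 1 d, ∑' M : ι i, ENNReal.ofReal q ^ dm i M) /
        ENNReal.ofReal q ^ d) atTop (nhds (ENNReal.ofReal C)) := by
  set S : ℕ → ℝ≥0∞ → ℝ≥0∞ := fun i Q => ∑' M : ι i, Q ^ dm i M with hS
  -- the limits of the terms
  have hlim : ∀ q C : ℝ, 1 < q → Tendsto (fun d : ℕ => (∑ i ∈ Finset.Icc 1 d,
      S i (ENNReal.ofReal q)) / ENNReal.ofReal q ^ d) atTop (nhds (ENNReal.ofReal C)) →
      Tendsto (fun d => S d (ENNReal.ofReal q) / ENNReal.ofReal q ^ d) atTop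
      (nhds (ENNReal.ofReal C - ENNReal.ofReal C / ENNReal.ofReal q)) := by
    intro q C hq ht
    set Q := ENNReal.ofReal q with hQ
    have hQ0 : Q ≠ 0 := by
      rw [hQ]
      exact (ENNReal.ofReal_pos.2 (by linarith)).ne'
    have hQt : Q ≠ ∞ := ENNReal.ofReal_ne_top
    set T : ℕ → ℝ≥0∞ := fun d => (∑ i ∈ Finset.Icc 1 d, S i Q) / Q ^ d with hTd
    have ht' : Tendsto T atTop (nhds (ENNReal.ofReal C)) := ht
    rw [← tendsto_add_atTop_iff_nat 1]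
    have t1 : Tendsto (fun d => T (d + 1)) atTop (nhds (ENNReal.ofReal C)) :=
      (tendsto_add_atTop_iff_nat 1).2 ht'
    have t2 : Tendsto (fun d => T d / Q) atTop (nhds (ENNReal.ofReal C / Q)) :=
      ENNReal.Tendsto.div_const ht' (Or.inr hQ0)
    have t3 := ENNReal.Tendsto.sub t1 t2 (Or.inl ENNReal.ofReal_ne_top)
    refine t3.congr' ?_
    have hfin : ∀ᶠ d in atTop, T d < ∞ := ht'.eventually (eventually_lt_nhds ENNReal.ofReal_lt_top)
    filter_upwards [hfin] with d hd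
    have e : T (d + 1) = S (d + 1) Q / Q ^ (d + 1) + T d / Q := by
      simp only [hTd]
      rw [Finset.sum_Icc_succ_top (by omega), ENNReal.add_div, add_comm]
      congr 1
      rw [pow_succ, div_eq_mul_inv, div_eq_mul_inv, div_eq_mul_inv, mul_assoc,
        ENNReal.mul_inv (Or.inr hQt) (Or.inr hQ0)]
    rw [e]
    apply ENNReal.add_sub_cancel_right
    exact (ENNReal.div_lt_top hd.ne hQ0).ne
  -- monotonicity
  have hmono : ∀ (q q' : ℝ) (c c' : ℝ≥0∞), 1 < q → q ≤ q' →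
      Tendsto (fun d => S d (ENNReal.ofReal q) / ENNReal.ofReal q ^ d) atTop (nhds c) →
      Tendsto (fun d => S d (ENNReal.ofReal q') / ENNReal.ofReal q' ^ d) atTop (nhds c') →
      c' ≤ c := by
    intro q q' c c' h1 h2 hc hc'
    refine le_of_tendsto_of_tendsto_of_frequently hc' hc ?_
    rw [frequently_atTop]
    intro a
    obtain ⟨p, hp1, hp2⟩ := Nat.exists_infinite_primes (max a 3)
    refine ⟨p, le_trans (le_max_left _ _) hp1, ?_⟩
    have h3 : 3 ≤ p := le_trans (le_max_right _ _) hp1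
    have hodd' : Odd p := hp2.odd_of_ne_two (by omega)
    simp only [hS]
    rw [div_eq_mul_inv, div_eq_mul_inv, ← ENNReal.tsum_mul_right, ← ENNReal.tsum_mul_right]
    refine ENNReal.tsum_le_tsum fun M => ?_
    have hdm := hodd p hp2 hodd' M
    have key : ∀ r : ℝ, 1 < r → ENNReal.ofReal r ^ dm p M * (ENNReal.ofReal r ^ p)⁻¹ =
        (ENNReal.ofReal r ^ (p - dm p M))⁻¹ := by
      intro r hr
      have r0 : ENNReal.ofReal r ≠ 0 := (ENNReal.ofReal_pos.2 (by linarith)).ne'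
      have rt : ENNReal.ofReal r ≠ ∞ := ENNReal.ofReal_ne_top
      have e : ENNReal.ofReal r ^ p = ENNReal.ofReal r ^ dm p M * ENNReal.ofReal r ^ (p - dm p M) := by
        rw [← pow_add]
        congr 1
        omega
      rw [e, ENNReal.mul_inv (Or.inl (pow_ne_zero _ r0)) (Or.inl (ENNReal.pow_ne_top rt)),
        ← mul_assoc, ENNReal.mul_inv_cancel (pow_ne_zero _ r0) (ENNReal.pow_ne_top rt), one_mul]
    rw [key q h1, key q' (by linarith)]
    apply ENNReal.inv_le_inv.2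
    gcongr
  have hlow : ∀ (q : ℝ) (c : ℝ≥0∞), 1 < q →
      Tendsto (fun d => S d (ENNReal.ofReal q) / ENNReal.ofReal q ^ d) atTop (nhds c) →
      ENNReal.ofReal q ≤ c := by
    intro q c hq hc
    refine ge_of_tendsto_of_frequently hc ?_
    rw [frequently_atTop]
    intro a
    refine ⟨2 * (a + 2), by omega, ?_⟩
    obtain ⟨M, hM⟩ := heven (a + 2) (by omega)
    have r0 : ENNReal.ofReal q ≠ 0 := (ENNReal.ofReal_pos.2 (by linarith)).ne'
    have rt : ENNReal.ofReal q ≠ ∞ := ENNReal.ofReal_ne_top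
    have r1 : 1 ≤ ENNReal.ofReal q := by
      rw [← ENNReal.ofReal_one]
      exact ENNReal.ofReal_le_ofReal hq.le
    rw [ENNReal.le_div_iff_mul_le (Or.inl (pow_ne_zero _ r0)) (Or.inl (ENNReal.pow_ne_top rt))]
    calc ENNReal.ofReal q * ENNReal.ofReal q ^ (2 * (a + 2))
        = ENNReal.ofReal q ^ (2 * (a + 2) + 1) := by rw [pow_succ, mul_comm]
      _ ≤ ENNReal.ofReal q ^ dm (2 * (a + 2)) M := pow_le_pow_right₀ r1 hM
      _ ≤ S (2 * (a + 2)) (ENNReal.ofReal q) :=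
          ENNReal.le_tsum (f := fun M => ENNReal.ofReal q ^ dm (2 * (a + 2)) M) M
  by_cases hex : ∃ q₀ C₀ : ℝ, 1 < q₀ ∧ Tendsto (fun d : ℕ => (∑ i ∈ Finset.Icc 1 d,
      S i (ENNReal.ofReal q₀)) / ENNReal.ofReal q₀ ^ d) atTop (nhds (ENNReal.ofReal C₀))
  · obtain ⟨q₀, C₀, hq₀, hC₀⟩ := hex
    have h1 := hlim q₀ C₀ hq₀ hC₀
    set c₀ : ℝ≥0∞ := ENNReal.ofReal C₀ - ENNReal.ofReal C₀ / ENNReal.ofReal q₀ with hc₀
    have hfin : c₀ ≠ ∞ := ne_top_of_le_ne_top ENNReal.ofReal_ne_top tsub_le_self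
    refine ⟨max q₀ c₀.toReal, hq₀.le.trans (le_max_left _ _), ?_⟩
    rintro q hq ⟨C, -, hC⟩
    have hq1 : q₀ < q := (le_max_left _ _).trans_lt hq
    have hq2 : c₀.toReal < q := (le_max_right _ _).trans_lt hq
    have h2 := hlim q C (by linarith) hC
    have h3 := (hlow q _ (by linarith) h2).trans (hmono q₀ q _ _ hq₀ hq1.le h1 h2)
    rw [ENNReal.ofReal_le_iff_le_toReal hfin] at h3
    linarith
  · refine ⟨1, le_rfl, ?_⟩
    rintro q hq ⟨C, -, hC⟩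
    exact hex ⟨q, C, hq, hC⟩

section
variable {𝕜 : Type} [Field 𝕜] {K : Type} [Field K] [Algebra 𝕜 K]

/-- The counting function: the sum of `q ^ dim` over the components of the spaces of sections of
height `i`, `1 ≤ i ≤ d`, which are not in `A`. `IsComp (cone x y i) M` says that `M` is an irreducible
component of the cone over the space of the sections of height `i`, so `dimA M - 1` is the dimension
of the corresponding component of the space of sections. -/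
noncomputable def NN (x y : K) (A : (d : ℕ) → Set (Set (Idx d → 𝕜))) (q : ℝ) (d : ℕ) : ℝ≥0∞ :=
  ∑ i ∈ Finset.Icc 1 d, ∑' M : {M : Set (Idx i → 𝕜) // IsComp (cone x y i) M ∧ M ∉ A i},
    ENNReal.ofReal q ^ (dimA M.1 - 1)

/-- The counting function of the components outside `A` is asymptotic to `C q ^ d` for a constant
`C > 0`. -/
def Asymptotic (x y : K) (A : (d : ℕ) → Set (Set (Idx d → 𝕜))) (q : ℝ) : Prop :=
  ∃ C : ℝ, 0 < C ∧ Tendsto (fun d : ℕ => NN x y A q d / ENNReal.ofReal q ^ d) atTop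
    (nhds (ENNReal.ofReal C))

end

theorem genptk (𝕜 : Type) [Field 𝕜] [CharZero 𝕜] [IsAlgClosed 𝕜] : S_GENPTk 𝕜 :=
  genpt 𝕜 Pool.Agent.Q54.DP.model ff hRK Pool.Agent.Q192.DP.eqn Pool.Agent.Y179.DP.stmDual

theorem lowk (𝕜 : Type) [Field 𝕜] [CharZero 𝕜] [IsAlgClosed 𝕜] : S_LOWk 𝕜 :=
  low 𝕜 ff hRK Pool.Agent.Q192.DP.eqn stmMap Pool.Agent.Q94.DP.comp Pool.Agent.Q94.DP.dim
    Pool.Agent.Q72.DP.spec Pool.Agent.Q119.DP.surf Pool.Agent.Q119.DP.nosurf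
    (ptb 𝕜 Pool.Agent.Q54.DP.model ff Pool.Agent.Q63.DP.ext Pool.Agent.Y179.DP.stmDual
      Pool.Agent.Y179.DP.stmAlg hHt hInj Pool.Agent.Q278.DP.mov
      (Pool.Agent.Q203.DPF.pta inf hPts hBasis hPhi hUU Pool.Agent.Q278.DP.tan))

section
variable {𝕜 : Type} [Field 𝕜] [CharZero 𝕜] [IsAlgClosed 𝕜] {K : Type} [Field K] [Algebra 𝕜 K]
  [IsFF 𝕜 K] {lam : 𝕜} {x y : K}

/-- the upper bound -/
theorem upper (hE : Ell 𝕜 K lam x y) (hlam : Transcendental ℚ lam) (p : ℕ) (hp : p.Prime)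
    (hodd : Odd p) (M : Set (Idx p → 𝕜)) (hM : IsComp (cone x y p) M) : dimA M - 1 ≤ p := by
  obtain ⟨k, K', i1, i2, i3, i4, i5, i6, i7, x', y', hE', c, hc, 𝒟, h1, h2, h3⟩ :=
    genptk 𝕜 K lam x y hE hlam p M hM
  have h4 := hBound k K' _ x' y' hE' p hp hodd c hc 𝒟 h1 h3
  omega

/-- the lower bound -/
theorem lower (hE : Ell 𝕜 K lam x y) (m : ℕ) (hm : 2 ≤ m) :
    ∃ M : Set (Idx (2 * m) → 𝕜), IsComp (cone x y (2 * m)) M ∧ 2 * m + 1 ≤ dimA M - 1 ∧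
      ¬ InSurface x y M := by
  obtain ⟨M, hM, h2, h3⟩ := lowk 𝕜 K lam x y hE m hm
  exact ⟨M, hM, by omega, h3⟩

/-- the failure of the asymptotic formula -/
theorem fails (hE : Ell 𝕜 K lam x y) (hlam : Transcendental ℚ lam)
    (A : (d : ℕ) → Set (Set (Idx d → 𝕜))) (hA : ∀ d, ∀ M ∈ A d, InSurface x y M) :
    ∃ Q : ℝ, 1 ≤ Q ∧ ∀ q : ℝ, Q < q → ¬ Asymptotic x y A q := by
  refine asym (fun i => {M : Set (Idx i → 𝕜) // IsComp (cone x y i) M ∧ M ∉ A i})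
    (fun i M => dimA M.1 - 1) ?_ ?_
  · rintro p hp hodd ⟨M, hM, -⟩
    exact upper hE hlam p hp hodd M hM
  · intro m hm
    obtain ⟨M, hM, h1, h2⟩ := lower hE m hm
    exact ⟨⟨M, hM, fun h => h2 (hA _ M h)⟩, h1⟩

end

/-- the assembly, for the function field of Mathlib -/
theorem final (𝕜 : Type) [Field 𝕜] [IsAlgClosed 𝕜] [CharZero 𝕜] (lam : 𝕜) (h0 : lam ≠ 0)
    (h1 : lam ≠ 1) :
    (∀ (d : ℕ) (g : Fin 3 → KB 𝕜 lam) (h : KB 𝕜 lam), g ≠ 0 →
      xB 𝕜 lam * h ^ 2 = quart g → ht 𝕜 g = d →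
      (∃ c : Idx d → 𝕜, c ∈ cone (xB 𝕜 lam) (yB 𝕜 lam) d ∧ Repr (xB 𝕜 lam) (yB 𝕜 lam) c g h) ∧
      ∀ c c' : Idx d → 𝕜, Repr (xB 𝕜 lam) (yB 𝕜 lam) c g h → Repr (xB 𝕜 lam) (yB 𝕜 lam) c' g h →
        ∃ t : 𝕜, t ≠ 0 ∧ (∀ p, c' (.inl p) = t * c (.inl p)) ∧
          ∀ p, c' (.inr p) = t ^ 2 * c (.inr p)) ∧
    (∀ m : ℕ, 2 ≤ m → ∃ M : Set (Idx (2 * m) → 𝕜),
      IsComp (cone (xB 𝕜 lam) (yB 𝕜 lam) (2 * m)) M ∧ 2 * m + 1 ≤ dimA M - 1 ∧
        ¬ InSurface (xB 𝕜 lam) (yB 𝕜 lam) M) ∧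
    (Transcendental ℚ lam →
      (∀ p : ℕ, p.Prime → Odd p → ∀ M : Set (Idx p → 𝕜),
        IsComp (cone (xB 𝕜 lam) (yB 𝕜 lam) p) M → dimA M - 1 ≤ p) ∧
      ∀ A : (d : ℕ) → Set (Set (Idx d → 𝕜)),
        (∀ d, ∀ M ∈ A d, InSurface (xB 𝕜 lam) (yB 𝕜 lam) M) →
        ∃ Q : ℝ, 1 ≤ Q ∧ ∀ q : ℝ, Q < q → ¬ Asymptotic (xB 𝕜 lam) (yB 𝕜 lam) A q) := by
  have hE := Pool.Agent.Q54.DP.model 𝕜 lam h0 h1
  have hF : IsFF 𝕜 (KB 𝕜 lam) := ff 𝕜 _ lam _ _ hE
  refine ⟨?_, ?_, ?_⟩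
  · intro d g h hg hq hd
    exact rep inf hBasis hRR 𝕜 _ lam _ _ hE d g h hg hq hd
  · exact fun m hm => lower hE m hm
  · exact fun hlam => ⟨fun p hp hodd M hM => upper hE hlam p hp hodd M hM,
      fun A hA => fails hE hlam A hA⟩

end Pool.Agent.H67GM
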